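import Mathlib
import Pool.Agent.Y714.PV.A3
import Pool.Agent.H373R2.T7.SingLow
import Pool.Agent.H373R2.T7.Sys6

/-! Simultaneous prime values of several shifted polynomials near the end of an interval, for almost all shifts. -/

set_option autoImplicit false

namespace Pool.Agent.Y714.PV
open Finset Polynomial
open Pool.Agent.H373R2.T7

/-- the local condition -/
def QQ {k : ℕ} (F : Fin k → ℤ[X]) (κ : Fin k → ℤ) (p n : ℕ) : Prop := ∃ i, (p : ℤ) ∣ (F i).eval (n : ℤ) + κ i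

/-- bound for the number of classes -/
def CC {k : ℕ} (F : Fin k → ℤ[X]) : ℕ := 1 + ∑ i, ((F i).natDegree + (F i).leadingCoeff.natAbs)

lemma CC_pos {k : ℕ} (F : Fin k → ℤ[X]) : 1 ≤ CC F := by unfold CC; omega

lemma QQ_per {k : ℕ} (F : Fin k → ℤ[X]) (hd : ∀ i, 1 ≤ (F i).natDegree) (κ : Fin k → ℤ) : PerB (QQ F κ) (CC F) := by
  classical
  constructor
  · intro p n
    unfold QQ
    apply exists_congr
    intro i
    have h1 : ((n : ℤ) - ((n % p : ℕ) : ℤ)) ∣ (F i).eval (n : ℤ) - (F i).eval ((n % p : ℕ) : ℤ) := sub_dvd_eval_sub _ _ _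
    have h2 : (p : ℤ) ∣ (n : ℤ) - ((n % p : ℕ) : ℤ) := by
      push_cast
      exact Int.dvd_self_sub_emod
    have h3 := h2.trans h1
    have h4 : (p : ℤ) ∣ ((F i).eval (n : ℤ) + κ i) - ((F i).eval ((n % p : ℕ) : ℤ) + κ i) := by
      rw [add_sub_add_right_eq_sub]
      exact h3
    exact (dvd_iff_dvd_of_dvd_sub h4)
  · intro p hp
    unfold nuB QQ
    have h1 : (range p).filter (fun r : ℕ => ∃ i, (p : ℤ) ∣ (F i).eval (r : ℤ) + κ i) ⊆
        univ.biUnion (fun i => (range p).filter (fun r : ℕ => (p : ℤ) ∣ (F i + C (κ i)).eval (r : ℤ))) := by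
      intro r hr
      rw [mem_filter] at hr
      obtain ⟨i, hi⟩ := hr.2
      rw [mem_biUnion]
      exact ⟨i, mem_univ _, mem_filter.2 ⟨hr.1, by rw [eval_add, eval_C]; exact hi⟩⟩
    have key : ((range p).filter (fun r : ℕ => ∃ i, (p : ℤ) ∣ (F i).eval (r : ℤ) + κ i)).card ≤ ∑ i : Fin k,
        ((range p).filter (fun r : ℕ => (p : ℤ) ∣ (F i + C (κ i)).eval (r : ℤ))).card :=
      (card_le_card h1).trans card_biUnion_le
    have h2 : ∀ i ∈ (univ : Finset (Fin k)), ((range p).filter (fun r : ℕ => (p : ℤ) ∣ (F i + C (κ i)).eval (r : ℤ))).card ≤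
        (F i).natDegree + (F i).leadingCoeff.natAbs := by
      intro i _
      by_cases hp2 : (p : ℤ) ∣ (F i).leadingCoeff
      · have hne : (F i).leadingCoeff ≠ 0 := by
          rw [Ne, leadingCoeff_eq_zero]
          intro h
          have := hd i
          rw [h] at this
          simp at this
        have h3 : p ≤ (F i).leadingCoeff.natAbs := by
          apply Nat.le_of_dvd
          · exact Int.natAbs_pos.2 hne
          · exact Int.natCast_dvd.1 hp2
        refine (card_filter_le _ _).trans ?_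
        rw [card_range]
        omega
      · refine (roots_le _ p hp (F i).natDegree ?_ ?_).trans (by omega)
        · rw [natDegree_add_C]
        · rw [coeff_add, coeff_C, if_neg (by have := hd i; omega), add_zero]
          exact hp2
    have key2 := key.trans (sum_le_sum h2)
    have key3 : ((range p).filter (fun r : ℕ => ∃ i, (p : ℤ) ∣ (F i).eval (r : ℤ) + κ i)).card ≤ CC F := by
      unfold CC
      omega
    convert key3

lemma QQ_lt {k : ℕ} (F : Fin k → ℤ[X]) (κ : Fin k → ℤ) (p : ℕ) (hp : p.Prime)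
    (h : ∃ n : ℤ, ∀ i, ¬ (p : ℤ) ∣ (F i).eval n + κ i) : nuB (QQ F κ) p + 1 ≤ p := by
  classical
  obtain ⟨r, hr⟩ := h
  have hp0 : (0 : ℤ) < p := by exact_mod_cast hp.pos
  set r' : ℕ := (r % p).toNat with hr'
  have h1 : (r' : ℤ) = r % p := Int.toNat_of_nonneg (Int.emod_nonneg _ hp0.ne')
  have h2 : r' < p := by
    have := Int.emod_lt_of_pos r hp0
    omega
  unfold nuB
  have h4 : (range p).filter (fun r : ℕ => QQ F κ p r) ⊆ (range p).erase r' := by
    intro s hs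
    rw [mem_filter] at hs
    rw [mem_erase]
    refine ⟨?_, hs.1⟩
    rintro rfl
    obtain ⟨i, hi⟩ := hs.2
    apply hr i
    have h5 : (p : ℤ) ∣ r - r' := by
      rw [h1]
      exact Int.dvd_self_sub_emod
    have h6 := h5.trans (sub_dvd_eval_sub r (r' : ℤ) (F i))
    have e : (F i).eval r + κ i = ((F i).eval r - (F i).eval (r' : ℤ)) + ((F i).eval (r' : ℤ) + κ i) := by ring
    rw [e]
    exact dvd_add h6 hi
  have h5 := card_le_card h4
  rw [card_erase_of_mem (mem_range.2 h2), card_range] at h5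
  have := hp.pos
  have h6 : #((range p).filter (fun r : ℕ => QQ F κ p r)) + 1 ≤ p := by omega
  convert h6

/-- the product of the local densities is not small -/
lemma dens_low (m : ℕ) (hm : 1 ≤ m) (E : ℕ) : ∃ c : ℝ, 0 < c ∧ ∃ N0 : ℕ, ∀ N : ℕ, N0 ≤ N → ∀ z : ℕ, 1 ≤ z → (z : ℝ) ≤ Real.log N ^ E →
    ∀ ν : ℕ → ℕ, (∀ p ∈ pz z, ν p ≤ m) → (∀ p ∈ pz z, ν p + 1 ≤ p) →
    c / Real.log N ^ m ≤ ∏ p ∈ pz z, (1 - (ν p : ℝ) / p) := by
  obtain ⟨N1, h1⟩ := Vz_inv_small E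
  obtain ⟨N2, h2⟩ := ev_L' 1
  refine ⟨(1 / (3 * m : ℝ)) ^ (3 * m) * Real.exp (-(2 * (m : ℝ) ^ 2)), by positivity, max N1 N2, fun N hN z hz hzE ν hν1 hν2 => ?_⟩
  have hV := h1 N ((le_max_left _ _).trans hN) z hz hzE
  have hL := h2 N ((le_max_right _ _).trans hN)
  have hL0 : 0 < Real.log N := by linarith
  have key := local_low m hm ν z hν1 hν2
  rw [prod_div_distrib, prod_pow] at key
  have hVp := Vz_pos z
  have e : ∏ p ∈ pz z, (1 - 1 / (p : ℝ)) = Vz z := rfl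
  rw [e, le_div_iff₀ (pow_pos hVp _)] at key
  refine le_trans ?_ key
  rw [div_eq_mul_inv]
  apply mul_le_mul_of_nonneg_left _ (by positivity)
  rw [← inv_pow]
  apply pow_le_pow_left₀ (by positivity)
  rw [inv_le_comm₀ hL0 hVp]
  exact hV

/-- the size of the sifted set near the end of the interval -/
lemma sift_low {k : ℕ} (F : Fin k → ℤ[X]) (hd : ∀ i, 1 ≤ (F i).natDegree) (H E : ℕ) (hH : 2 ≤ H) :
    ∃ N0 : ℕ, ∀ x : ℕ, N0 ≤ x → ∀ z : ℕ, 1 ≤ z → (z : ℝ) ≤ Real.log x ^ E →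
    ∀ κ : Fin k → ℤ, (∀ p : ℕ, p.Prime → ∃ n : ℤ, ∀ i, ¬ (p : ℤ) ∣ (F i).eval n + κ i) →
    ∃ S : Finset ℕ, (∀ n ∈ S, n ∈ Icc 1 x ∧ H * x ≤ H * n + x ∧ ∀ p ∈ pz z, ¬ QQ F κ p n) ∧
      (x : ℝ) / Real.log x ^ (CC F + 1) < #S := by
  classical
  obtain ⟨m, hm⟩ : ∃ m, m = CC F := ⟨_, rfl⟩
  have hm1 : 1 ≤ m := by rw [hm]; exact CC_pos F
  obtain ⟨c, hc, N1, h1⟩ := dens_low m hm1 E
  obtain ⟨N2, h2⟩ := sys_count m (E + 1) (m + 2) hm1
  obtain ⟨N3, h3⟩ := ev_L' (2 * 2 ^ E + (H / c) * (2 + 2 ^ (m + 2)) + 2)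
  refine ⟨max (max N1 (2 * N2 + 2)) (max N3 16), fun x hx z hz hzE κ hκ => ?_⟩
  have b1 := le_trans (le_trans (le_max_left _ _) (le_max_left _ _)) hx
  have b2 := le_trans (le_trans (le_max_right _ _) (le_max_left _ _)) hx
  have b3 := le_trans (le_trans (le_max_left _ _) (le_max_right _ _)) hx
  have b4 : 16 ≤ x := le_trans (le_trans (le_max_right _ _) (le_max_right _ _)) hx
  have hL := h3 x b3
  have hH0 : (0 : ℝ) < H := by exact_mod_cast (by omega : 0 < H)
  obtain ⟨L, hLd⟩ : ∃ L, L = Real.log x := ⟨_, rfl⟩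
  have q1 : 0 ≤ (H / c : ℝ) * (2 + 2 ^ (m + 2)) := by positivity
  have q2 : (1 : ℝ) ≤ 2 ^ E := one_le_pow₀ (by norm_num)
  obtain ⟨P, hP⟩ : ∃ P : ℝ, P = ∏ p ∈ pz z, (1 - (nuB (QQ F κ) p : ℝ) / p) := ⟨_, rfl⟩
  have hper : PerB (QQ F κ) m := by rw [hm]; exact QQ_per F hd κ
  have hPlow : c / L ^ m ≤ P := by
    rw [hP, hLd]
    exact h1 x b1 z hz hzE (nuB (QQ F κ)) (fun p hp => hper.few p (mem_pz.1 hp).2)
      (fun p hp => QQ_lt F κ p (mem_pz.1 hp).2 (hκ p (mem_pz.1 hp).2))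
  have hP1 : P ≤ 1 := by
    rw [hP]
    apply prod_le_one
    · intro p hp
      have hp0 : (0 : ℝ) < p := by exact_mod_cast (mem_pz.1 hp).2.pos
      have : (nuB (QQ F κ) p : ℝ) / p ≤ 1 := by
        rw [div_le_one hp0]
        exact_mod_cast nuB_le _ p
      linarith
    · intro p hp
      have : (0 : ℝ) ≤ (nuB (QQ F κ) p : ℝ) / p := by positivity
      linarith
  rw [← hLd] at hL hzE ⊢
  have hL2 : 2 ≤ L := by linarith
  have hL0 : 0 < L := by linarith
  have hxr : (16 : ℝ) ≤ x := by exact_mod_cast b4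
  have hx0 : (0 : ℝ) < x := by linarith
  -- the starting point
  obtain ⟨y, hy⟩ : ∃ y : ℕ, y = (H - 1) * x / H := ⟨_, rfl⟩
  have hy1 : y ≤ x := by
    rw [hy]
    apply Nat.div_le_of_le_mul
    exact Nat.mul_le_mul_right _ (by omega)
  have hy2 : x ≤ 2 * y + 2 := by
    have h4 : (H - 1) * x < H * (y + 1) := by
      rw [hy]
      exact Nat.lt_mul_div_succ _ (by omega)
    have h5 : H * x ≤ 2 * ((H - 1) * x) := by
      rw [← mul_assoc]
      exact Nat.mul_le_mul_right _ (by omega)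
    have h6 : H * x < H * (2 * (y + 1)) := by
      calc H * x ≤ 2 * ((H - 1) * x) := h5
        _ < 2 * (H * (y + 1)) := by omega
        _ = H * (2 * (y + 1)) := by ring
    have := Nat.lt_of_mul_lt_mul_left h6
    omega
  have hy3 : H * y ≤ (H - 1) * x := by rw [hy]; exact Nat.mul_div_le _ _
  have hyN : N2 ≤ y := by omega
  have hyr : (x : ℝ) ≤ 2 * y + 2 := by exact_mod_cast hy2
  have hy0 : (0 : ℝ) < y := by linarith
  have hlog : L / 2 ≤ Real.log y := by
    have h4 : √(x : ℝ) ≤ y := by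
      rw [Real.sqrt_le_left hy0.le]
      nlinarith
    have h5 := Real.log_le_log (Real.sqrt_pos.2 hx0) h4
    rw [Real.log_sqrt hx0.le, ← hLd] at h5
    exact h5
  have hly0 : 0 < Real.log y := by linarith
  have hzy : (z : ℝ) ≤ Real.log y ^ (E + 1) := by
    refine hzE.trans ?_
    calc L ^ E ≤ (2 * Real.log y) ^ E := pow_le_pow_left₀ hL0.le (by linarith) _
      _ = 2 ^ E * Real.log y ^ E := mul_pow _ _ _
      _ ≤ Real.log y * Real.log y ^ E := by
          apply mul_le_mul_of_nonneg_right _ (pow_nonneg hly0.le _)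
          linarith
      _ = _ := by ring
  have hzx : (z : ℝ) ≤ Real.log x ^ (E + 1) := by
    rw [← hLd]
    exact hzE.trans (pow_le_pow_right₀ (by linarith) (by omega))
  obtain ⟨Sx, hSx⟩ : ∃ Sx, Sx = (Icc 1 x).filter (fun n : ℕ => ∀ p ∈ pz z, ¬ QQ F κ p n) := ⟨_, rfl⟩
  obtain ⟨Sy, hSy⟩ : ∃ Sy, Sy = (Icc 1 y).filter (fun n : ℕ => ∀ p ∈ pz z, ¬ QQ F κ p n) := ⟨_, rfl⟩
  have k1 := h2 x (by omega) z hz hzx (QQ F κ) hper
  have k2 := h2 y hyN z hz hzy (QQ F κ) hper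
  rw [← hP] at k1 k2
  have k1' : |(#Sx : ℝ) - x * P| ≤ x / L ^ (m + 2) := by
    rw [hLd, hSx]
    convert k1
  have k2' : |(#Sy : ℝ) - y * P| ≤ y / Real.log y ^ (m + 2) := by
    rw [hSy]
    convert k2
  have k3 : (y : ℝ) / Real.log y ^ (m + 2) ≤ 2 ^ (m + 2) * (x / L ^ (m + 2)) := by
    have h7 : (L / 2) ^ (m + 2) ≤ Real.log y ^ (m + 2) := pow_le_pow_left₀ (by positivity) hlog _
    calc (y : ℝ) / Real.log y ^ (m + 2) ≤ x / (L / 2) ^ (m + 2) := by
          apply div_le_div₀ hx0.le (by exact_mod_cast hy1) (by positivity) h7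
      _ = _ := by rw [div_pow]; field_simp
  refine ⟨Sx \ Sy, ?_, ?_⟩
  · intro n hn
    rw [mem_sdiff, hSx, hSy, mem_filter, mem_filter, mem_Icc, mem_Icc] at hn
    obtain ⟨⟨h4, h5⟩, h6⟩ := hn
    refine ⟨mem_Icc.2 h4, ?_, h5⟩
    have h7 : y < n := by
      by_contra hcon
      exact h6 ⟨⟨h4.1, not_lt.1 hcon⟩, h5⟩
    have h8 : (H - 1) * x < H * n := by
      calc (H - 1) * x < H * (y + 1) := by rw [hy]; exact Nat.lt_mul_div_succ _ (by omega)
        _ ≤ H * n := Nat.mul_le_mul_left _ h7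
    have h9 : H * x = (H - 1) * x + x := by
      obtain ⟨H', rfl⟩ : ∃ H', H = H' + 1 := ⟨H - 1, by omega⟩
      rw [Nat.add_sub_cancel]
      ring
    omega
  · have hsub : (#Sx : ℝ) - #Sy ≤ #(Sx \ Sy) := by
      have := le_card_sdiff Sy Sx
      have h4 : #Sx ≤ #(Sx \ Sy) + #Sy := by omega
      have h5 : (#Sx : ℝ) ≤ #(Sx \ Sy) + #Sy := by exact_mod_cast h4
      linarith
    refine lt_of_lt_of_le ?_ hsub
    have h4 := (abs_le.1 k1').1
    have h5 := (abs_le.1 k2').2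
    have h6 : (x : ℝ) / H ≤ x - y := by
      have h7 : H * y + x ≤ H * x := by
        have h9 : H * x = (H - 1) * x + x := by
          obtain ⟨H', rfl⟩ : ∃ H', H = H' + 1 := ⟨H - 1, by omega⟩
          rw [Nat.add_sub_cancel]
          ring
        omega
      have h8 : (H : ℝ) * y + x ≤ H * x := by exact_mod_cast h7
      rw [div_le_iff₀ hH0]
      linarith
    have hLm : 0 < L ^ m := by positivity
    have h7 : (x : ℝ) / H * (c / L ^ m) ≤ (x - y) * P := by
      apply mul_le_mul h6 hPlow (by positivity)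
      have : (0 : ℝ) ≤ x / H := by positivity
      linarith
    have h8 : (x : ℝ) / L ^ (m + 1) + (1 + 2 ^ (m + 2)) * (x / L ^ (m + 2)) < x / H * (c / L ^ m) := by
      have e1 : (x : ℝ) / L ^ (m + 1) = (x / L ^ m) * (1 / L) := by rw [pow_succ]; field_simp
      have e2 : (1 + 2 ^ (m + 2)) * ((x : ℝ) / L ^ (m + 2)) = (x / L ^ m) * ((1 + 2 ^ (m + 2)) * (1 / L ^ 2)) := by
        rw [pow_add L m 2]; field_simp
      have e3 : (x : ℝ) / H * (c / L ^ m) = (x / L ^ m) * (c / H) := by field_simp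
      rw [e1, e2, e3, ← mul_add]
      apply mul_lt_mul_of_pos_left _ (by positivity)
      have h9 : (1 : ℝ) / L ^ 2 ≤ 1 / L := by
        apply one_div_le_one_div_of_le hL0
        nlinarith
      have h10 : (1 + 2 ^ (m + 2)) * (1 / L ^ 2) ≤ (1 + 2 ^ (m + 2)) * (1 / L) :=
        mul_le_mul_of_nonneg_left h9 (by positivity)
      have h11 : 1 / L + (1 + 2 ^ (m + 2)) * (1 / L) = (2 + 2 ^ (m + 2)) / L := by ring
      have h12 : (2 + 2 ^ (m + 2)) / L < c / H := by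
        rw [div_lt_div_iff₀ hL0 hH0]
        have h13 : (H / c : ℝ) * (2 + 2 ^ (m + 2)) < L := by linarith
        calc (2 + 2 ^ (m + 2)) * (H : ℝ) = c * ((H / c) * (2 + 2 ^ (m + 2))) := by field_simp
          _ < c * L := mul_lt_mul_of_pos_left h13 hc
      linarith
    have e1 : ((x : ℝ) - y) * P = x * P - y * P := by ring
    have e2 : (1 + 2 ^ (m + 2)) * ((x : ℝ) / L ^ (m + 2)) = x / L ^ (m + 2) + 2 ^ (m + 2) * (x / L ^ (m + 2)) := by ring
    rw [e1] at h7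
    rw [e2] at h8
    have fin : (x : ℝ) / L ^ (m + 1) < #Sx - #Sy := by linarith
    rw [← hm]
    exact fin

end Pool.Agent.Y714.PV
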