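import Mathlib
import Pool.Agent.Y714.PV.A4

/-! Simultaneous prime values of several shifted polynomials near the end of an interval, for almost all shifts: the theorem. -/

set_option autoImplicit false

namespace Pool.Agent.Y714.PV
open Finset Polynomial
open Pool.Agent.H373R2.T7

/-- the sign of an integer -/
def sgn (c : ℤ) : ℤ := if 0 < c then 1 else -1

lemma sgn_pm (c : ℤ) : sgn c = 1 ∨ sgn c = -1 := by
  unfold sgn
  split_ifs
  · exact Or.inl rfl
  · exact Or.inr rfl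

lemma sgn_sq (c : ℤ) : sgn c * sgn c = 1 := by
  rcases sgn_pm c with h | h <;> rw [h] <;> norm_num

lemma sgn_mul_pos (c : ℤ) (hc : c ≠ 0) : 0 < sgn c * c := by
  unfold sgn
  split_ifs with h
  · linarith
  · have : c < 0 := lt_of_le_of_ne (not_lt.1 h) hc
    linarith

lemma pm_sq {e : ℤ} (h : e = 1 ∨ e = -1) : e * e = 1 := by
  rcases h with h | h <;> rw [h] <;> norm_num

lemma lamP_pos_prime (v : ℤ) (h : lamP v ≠ 0) : v.natAbs.Prime := by
  unfold lamP at h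
  split_ifs at h with h1
  · have h2 : v.toNat = v.natAbs := by
      have := h1.pos
      omega
    rw [← h2]
    exact h1
  · exact absurd rfl h

lemma one_sign {k : ℕ} (F : Fin k → ℤ[X]) (hd : ∀ i, 1 ≤ (F i).natDegree) (B H U : ℕ) (hB : 1 ≤ B) (hH : 2 ≤ H)
    (ε : Fin k → ℤ) (hε : ∀ i, ε i = 1 ∨ ε i = -1) :
    ∃ N0 : ℕ, ∀ x : ℕ, N0 ≤ x → ∃ Bad : Finset (Fin k → ℤ), (#Bad : ℝ) ≤ (∏ i, (x : ℝ) ^ (F i).natDegree) / Real.log x ^ U ∧
      ∀ κ : Fin k → ℤ, (∀ i, |κ i| ≤ ((B * x ^ (F i).natDegree : ℕ) : ℤ)) → κ ∉ Bad →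
      (∀ p : ℕ, p.Prime → ∃ n : ℤ, ∀ i, ¬ (p : ℤ) ∣ (F i).eval n + κ i) →
      (∀ n : ℕ, n ≤ x → H * x ≤ H * n + x → ∀ i, 0 < ε i * ((F i).eval (n : ℤ) + κ i)) →
      ∃ n : ℕ, n ≤ x ∧ H * x ≤ H * n + x ∧ ∀ i, ((F i).eval (n : ℤ) + κ i).natAbs.Prime := by
  classical
  have hlc : ∀ i, (F i).leadingCoeff ≠ 0 := by
    intro i h
    rw [leadingCoeff_eq_zero] at h
    have := hd i
    rw [h] at this
    simp at this
  obtain ⟨F', hF'⟩ : ∃ F' : Fin k → ℤ[X], F' = fun i => C (sgn (F i).leadingCoeff) * F i := ⟨_, rfl⟩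
  have hsg0 : ∀ i, sgn (F i).leadingCoeff ≠ 0 := fun i => by rcases sgn_pm (F i).leadingCoeff with h | h <;> rw [h] <;> norm_num
  have hdF' : ∀ i, (F' i).natDegree = (F i).natDegree := by
    intro i
    rw [hF']
    exact natDegree_C_mul (hsg0 i)
  have hlF' : ∀ i, 0 < (F' i).leadingCoeff := by
    intro i
    rw [hF']
    simp only [leadingCoeff_mul, leadingCoeff_C]
    exact sgn_mul_pos _ (hlc i)
  obtain ⟨σ, hσ⟩ : ∃ σ : Fin k → ℤ, σ = fun i => ε i * sgn (F i).leadingCoeff := ⟨_, rfl⟩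
  have hσ1 : ∀ i, σ i = 1 ∨ σ i = -1 := by
    intro i
    rw [hσ]
    simp only
    rcases hε i with h | h <;> rcases sgn_pm (F i).leadingCoeff with h' | h' <;> rw [h, h'] <;> norm_num
  obtain ⟨m, hm⟩ : ∃ m, m = CC F + 1 := ⟨_, rfl⟩
  obtain ⟨B0, hB0⟩ := sys_diffP_s F' (fun i => by rw [hdF']; exact hd i) hlF' σ hσ1 (3 * B) (by omega) (m + U + 1)
  obtain ⟨N1, h1⟩ := hB0 (B0 + 1)
  obtain ⟨N2, h2⟩ := sift_low F hd H (B0 + 1) hH
  obtain ⟨N3, h3⟩ := ev_L' (max 2 ((3 * (B : ℝ)) ^ k))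
  refine ⟨max (max N1 N2) (max N3 3), fun x hx => ?_⟩
  have b1 := le_trans (le_trans (le_max_left _ _) (le_max_left _ _)) hx
  have b2 := le_trans (le_trans (le_max_right _ _) (le_max_left _ _)) hx
  have b3 := le_trans (le_trans (le_max_left _ _) (le_max_right _ _)) hx
  have b4 : 3 ≤ x := le_trans (le_trans (le_max_right _ _) (le_max_right _ _)) hx
  have hL := h3 x b3
  have hx0 : (0 : ℝ) < x := by exact_mod_cast (by omega : 0 < x)
  obtain ⟨L, hLd⟩ : ∃ L, L = Real.log x := ⟨_, rfl⟩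
  rw [← hLd] at hL ⊢
  have hL2 : 2 ≤ L := (le_max_left _ _).trans hL
  have hLB : (3 * (B : ℝ)) ^ k ≤ L := (le_max_right _ _).trans hL
  have hL0 : 0 < L := by linarith
  have hL1 : 1 ≤ L := by linarith
  obtain ⟨z, hz⟩ : ∃ z : ℕ, z = ⌈L ^ B0⌉₊ := ⟨_, rfl⟩
  have hz1 : L ^ B0 ≤ z := by rw [hz]; exact Nat.le_ceil _
  have hz2 : (z : ℝ) ≤ L ^ (B0 + 1) := by
    have h4 : (z : ℝ) ≤ L ^ B0 + 1 := by rw [hz]; exact (Nat.ceil_lt_add_one (by positivity)).le
    have h5 : 1 ≤ L ^ B0 := one_le_pow₀ hL1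
    rw [pow_succ]
    nlinarith
  have hz3 : 1 ≤ z := by
    have : (1 : ℝ) ≤ z := (one_le_pow₀ hL1).trans hz1
    exact_mod_cast this
  have hxd : ∀ i, 1 ≤ x ^ (F i).natDegree := fun i => Nat.one_le_pow _ _ (by omega)
  obtain ⟨A, hA⟩ : ∃ A : Fin k → ℕ, A = fun i => 2 * (B * x ^ (F i).natDegree) + 1 := ⟨_, rfl⟩
  obtain ⟨s, hs⟩ : ∃ s : Fin k → ℤ, s = fun i => -(((B * x ^ (F i).natDegree : ℕ) : ℤ) + 1) := ⟨_, rfl⟩
  have hBx : ∀ i, 1 ≤ B * x ^ (F i).natDegree := fun i => Nat.mul_pos (by omega) (hxd i)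
  have hA1 : ∀ i, A i ≤ 3 * B * x ^ (F' i).natDegree ∧ x ^ (F' i).natDegree ≤ 3 * B * A i := by
    intro i
    rw [hdF', hA]
    simp only
    have h4 := hBx i
    have h5 := hxd i
    constructor
    · rw [mul_assoc]
      omega
    · have h6 : x ^ (F i).natDegree ≤ B * x ^ (F i).natDegree := Nat.le_mul_of_pos_left _ (by omega)
      have h7 : 2 * (B * x ^ (F i).natDegree) + 1 ≤ 3 * B * (2 * (B * x ^ (F i).natDegree) + 1) := Nat.le_mul_of_pos_left _ (by omega)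
      omega
  have hs1 : ∀ i, |s i| ≤ ((3 * B * A i : ℕ) : ℤ) := by
    intro i
    rw [hs, hA]
    simp only
    rw [abs_neg, abs_of_nonneg (by positivity)]
    have h7 : 2 * (B * x ^ (F i).natDegree) + 1 ≤ 3 * B * (2 * (B * x ^ (F i).natDegree) + 1) := Nat.le_mul_of_pos_left _ (by omega)
    have h8 := hBx i
    have h9 : B * x ^ (F i).natDegree + 1 ≤ 3 * B * (2 * (B * x ^ (F i).natDegree) + 1) := by omega
    exact_mod_cast h9
  obtain ⟨G, hG⟩ : ∃ G : ℕ → ℝ, G = fun n => if H * x ≤ H * n + x then 1 else 0 := ⟨_, rfl⟩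
  have hG1 : ∀ n ∈ Icc 1 x, |G n| ≤ Real.log x := by
    intro n _
    rw [← hLd, hG]
    simp only
    split_ifs
    · rw [abs_one]; exact hL1
    · rw [abs_zero]; exact hL0.le
  have key := h1 x b1 A hA1 z (by rw [← hLd]; exact hz1) (by rw [← hLd]; exact hz2) s hs1 G hG1
  rw [← hLd] at key
  obtain ⟨fa, hfa⟩ : ∃ fa : (Fin k → ℕ) → ℝ, fa = fun a => |∑ n ∈ Icc 1 x, G n *
        (∏ i, lamP (vls F' σ s a i n) - ∏ i, lamzI z (vls F' σ s a i n))| := ⟨_, rfl⟩
  have key' : ∑ a ∈ Fintype.piFinset (fun i => Icc 1 (A i)), fa a ≤ (x / L ^ m) * ((∏ i, (A i : ℝ)) / L ^ (U + 1)) := by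
    rw [hfa]
    refine key.trans (le_of_eq ?_)
    rw [show m + U + 1 = m + (U + 1) by ring, pow_add]
    field_simp
  have hmar := markov (Fintype.piFinset (fun i => Icc 1 (A i))) fa (fun a _ => by rw [hfa]; exact abs_nonneg _) (x / L ^ m)
    ((∏ i, (A i : ℝ)) / L ^ (U + 1)) (by positivity) key'
  obtain ⟨BA, hBA⟩ : ∃ BA, BA = (Fintype.piFinset (fun i => Icc 1 (A i))).filter (fun a => (x : ℝ) / L ^ m < fa a) := ⟨_, rfl⟩
  rw [← hBA] at hmar
  refine ⟨BA.image (fun a i => ε i * ((a i : ℤ) + s i)), ?_, ?_⟩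
  · have h4 : (#(BA.image (fun a i => ε i * ((a i : ℤ) + s i))) : ℝ) ≤ #BA := by exact_mod_cast card_image_le
    refine h4.trans (hmar.trans ?_)
    have h5 : ∏ i, (A i : ℝ) ≤ (3 * (B : ℝ)) ^ k * ∏ i, (x : ℝ) ^ (F i).natDegree := by
      have e : (3 * (B : ℝ)) ^ k = ∏ _i : Fin k, (3 * (B : ℝ)) := by rw [prod_const, card_univ, Fintype.card_fin]
      rw [e, ← prod_mul_distrib]
      apply prod_le_prod (fun _ _ => Nat.cast_nonneg _)
      intro i _
      have := (hA1 i).1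
      rw [hdF'] at this
      exact_mod_cast this
    have hpr : 0 ≤ ∏ i, (x : ℝ) ^ (F i).natDegree := prod_nonneg fun i _ => by positivity
    rw [div_le_div_iff₀ (by positivity) (by positivity)]
    calc (∏ i, (A i : ℝ)) * L ^ U ≤ ((3 * (B : ℝ)) ^ k * ∏ i, (x : ℝ) ^ (F i).natDegree) * L ^ U :=
          mul_le_mul_of_nonneg_right h5 (by positivity)
      _ ≤ (L * ∏ i, (x : ℝ) ^ (F i).natDegree) * L ^ U := by
          apply mul_le_mul_of_nonneg_right _ (by positivity)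
          exact mul_le_mul_of_nonneg_right hLB hpr
      _ = _ := by rw [pow_succ]; ring
  · intro κ hκ hκB hloc hpos
    obtain ⟨a, ha⟩ : ∃ a : Fin k → ℕ, a = fun i => (ε i * κ i - s i).toNat := ⟨_, rfl⟩
    have hai : ∀ i, (a i : ℤ) = ε i * κ i - s i ∧ a i ∈ Icc 1 (A i) := by
      intro i
      have h4 : |ε i * κ i| ≤ ((B * x ^ (F i).natDegree : ℕ) : ℤ) := by
        refine le_trans (le_of_eq ?_) (hκ i)
        rcases hε i with h | h <;> rw [h] <;> simp
      have h5 := abs_le.1 h4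
      have h6 : (a i : ℤ) = ε i * κ i - s i := by
        rw [ha]
        apply Int.toNat_of_nonneg
        rw [hs]
        simp only
        linarith
      refine ⟨h6, ?_⟩
      rw [mem_Icc]
      rw [hs] at h6
      simp only at h6
      have h7 : (A i : ℤ) = 2 * ((B * x ^ (F i).natDegree : ℕ) : ℤ) + 1 := by rw [hA]; push_cast; ring
      constructor
      · have : (1 : ℤ) ≤ a i := by rw [h6]; linarith
        exact_mod_cast this
      · have : (a i : ℤ) ≤ A i := by rw [h6, h7]; linarith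
        exact_mod_cast this
    have hvls : ∀ i n, vls F' σ s a i n = ε i * ((F i).eval (n : ℤ) + κ i) := by
      intro i n
      unfold vls
      rw [(hai i).1, hF', hσ]
      simp only [eval_mul, eval_C]
      have := sgn_sq (F i).leadingCoeff
      linear_combination (ε i * (F i).eval (n : ℤ)) * this
    have haB : a ∉ BA := by
      intro h
      apply hκB
      rw [mem_image]
      refine ⟨a, h, ?_⟩
      funext i
      rw [(hai i).1]
      have := pm_sq (hε i)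
      linear_combination (κ i) * this
    have hfa1 : fa a ≤ x / L ^ m := by
      by_contra hcon
      apply haB
      rw [hBA, mem_filter]
      exact ⟨Fintype.mem_piFinset.2 fun i => (hai i).2, not_le.1 hcon⟩
    by_contra hno
    push Not at hno
    have hzero : ∀ n ∈ Icc 1 x, G n * ∏ i, lamP (vls F' σ s a i n) = 0 := by
      intro n hn
      rw [mem_Icc] at hn
      rw [hG]
      simp only
      split_ifs with h4
      · obtain ⟨i, hi⟩ := hno n hn.2 h4
        rw [one_mul]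
        apply prod_eq_zero (mem_univ i)
        by_contra h5
        apply hi
        have h6 := lamP_pos_prime _ h5
        rw [hvls] at h6
        rcases hε i with h | h
        · rw [h, one_mul] at h6
          exact h6
        · rw [h, neg_one_mul, Int.natAbs_neg] at h6
          exact h6
      · rw [zero_mul]
    have hsum : ∑ n ∈ Icc 1 x, G n * (∏ i, lamP (vls F' σ s a i n) - ∏ i, lamzI z (vls F' σ s a i n)) =
        -∑ n ∈ Icc 1 x, G n * ∏ i, lamzI z (vls F' σ s a i n) := by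
      rw [← sum_neg_distrib]
      apply sum_congr rfl
      intro n hn
      have := hzero n hn
      rw [mul_sub, this, zero_sub]
    have hGnn : ∀ n, 0 ≤ G n := by
      intro n
      rw [hG]
      simp only
      split_ifs <;> norm_num
    obtain ⟨S, hS1, hS2⟩ := h2 x b2 z hz3 (by rw [← hLd]; exact hz2) κ hloc
    have hSx : S ⊆ Icc 1 x := fun n hn => (hS1 n hn).1
    have hlow : (#S : ℝ) ≤ ∑ n ∈ Icc 1 x, G n * ∏ i, lamzI z (vls F' σ s a i n) := by
      calc (#S : ℝ) = ∑ _n ∈ S, (1 : ℝ) := by rw [sum_const, nsmul_eq_mul, mul_one]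
        _ ≤ ∑ n ∈ S, G n * ∏ i, lamzI z (vls F' σ s a i n) := by
            apply sum_le_sum
            intro n hn
            obtain ⟨h4, h5, h6⟩ := hS1 n hn
            rw [mem_Icc] at h4
            have hGn : G n = 1 := by rw [hG]; simp only; rw [if_pos h5]
            rw [hGn, one_mul]
            refine le_trans (le_of_eq (prod_const_one (s := (univ : Finset (Fin k)))).symm) ?_
            refine prod_le_prod (fun _ _ => zero_le_one) ?_
            intro i _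
            have h7 := hpos n h4.2 h5 i
            rw [hvls]
            unfold lamzI lamz
            rw [if_pos (by linarith), if_pos]
            · rw [one_le_inv₀ (Vz_pos z)]
              exact Vz_le_one z
            · intro p hp hdiv
              apply h6 p hp
              refine ⟨i, ?_⟩
              have h8 : ((ε i * ((F i).eval (n : ℤ) + κ i)).toNat : ℤ) = ε i * ((F i).eval (n : ℤ) + κ i) :=
                Int.toNat_of_nonneg h7.le
              have h9 : (p : ℤ) ∣ ε i * ((F i).eval (n : ℤ) + κ i) := by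
                rw [← h8]
                exact_mod_cast hdiv
              rcases hε i with h | h
              · rw [h, one_mul] at h9
                exact h9
              · rw [h, neg_one_mul, dvd_neg] at h9
                exact h9
        _ ≤ _ := by
            apply sum_le_sum_of_subset_of_nonneg hSx
            intro n _ _
            exact mul_nonneg (hGnn n) (prod_nonneg fun i _ => lamzI_nonneg _ _)
    rw [hfa] at hfa1
    simp only at hfa1
    rw [hsum, abs_neg, abs_of_nonneg (le_trans (Nat.cast_nonneg _) hlow)] at hfa1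
    rw [← hm, ← hLd] at hS2
    linarith

theorem exists_primes {k : ℕ} (F : Fin k → ℤ[X]) (hd : ∀ i, 1 ≤ (F i).natDegree) (B H U : ℕ) (hB : 1 ≤ B) (hH : 2 ≤ H) :
    ∃ N0 : ℕ, ∀ x : ℕ, N0 ≤ x → ∃ Bad : Finset (Fin k → ℤ), (#Bad : ℝ) ≤ (∏ i, (x : ℝ) ^ (F i).natDegree) / Real.log x ^ U ∧
      ∀ κ : Fin k → ℤ, (∀ i, |κ i| ≤ ((B * x ^ (F i).natDegree : ℕ) : ℤ)) → κ ∉ Bad →
      (∀ p : ℕ, p.Prime → ∃ n : ℤ, ∀ i, ¬ (p : ℤ) ∣ (F i).eval n + κ i) →
      ∀ ε : Fin k → ℤ, (∀ i, ε i = 1 ∨ ε i = -1) →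
      (∀ n : ℕ, n ≤ x → H * x ≤ H * n + x → ∀ i, 0 < ε i * ((F i).eval (n : ℤ) + κ i)) →
      ∃ n : ℕ, n ≤ x ∧ H * x ≤ H * n + x ∧ ∀ i, ((F i).eval (n : ℤ) + κ i).natAbs.Prime := by
  classical
  obtain ⟨E, hE⟩ : ∃ E : Finset (Fin k → ℤ), E = Fintype.piFinset (fun _ => {1, -1}) := ⟨_, rfl⟩
  have hmem : ∀ ε : Fin k → ℤ, ε ∈ E ↔ ∀ i, ε i = 1 ∨ ε i = -1 := by
    intro ε
    rw [hE, Fintype.mem_piFinset]
    simp
  have hex : ∀ ε : Fin k → ℤ, ∃ N0 : ℕ, ε ∈ E → ∀ x : ℕ, N0 ≤ x → ∃ Bad : Finset (Fin k → ℤ), (#Bad : ℝ) ≤ (∏ i, (x : ℝ) ^ (F i).natDegree) / Real.log x ^ (U + 1) ∧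
      ∀ κ : Fin k → ℤ, (∀ i, |κ i| ≤ ((B * x ^ (F i).natDegree : ℕ) : ℤ)) → κ ∉ Bad →
      (∀ p : ℕ, p.Prime → ∃ n : ℤ, ∀ i, ¬ (p : ℤ) ∣ (F i).eval n + κ i) →
      (∀ n : ℕ, n ≤ x → H * x ≤ H * n + x → ∀ i, 0 < ε i * ((F i).eval (n : ℤ) + κ i)) →
      ∃ n : ℕ, n ≤ x ∧ H * x ≤ H * n + x ∧ ∀ i, ((F i).eval (n : ℤ) + κ i).natAbs.Prime := by
    intro ε
    by_cases h : ε ∈ E
    · obtain ⟨N0, h0⟩ := one_sign F hd B H (U + 1) hB hH ε ((hmem ε).1 h)
      exact ⟨N0, fun _ => h0⟩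
    · exact ⟨0, fun h' => absurd h' h⟩
  choose N hN using hex
  obtain ⟨N1, h1⟩ := ev_L' (#E + 1)
  refine ⟨max (∑ ε ∈ E, N ε) N1, fun x hx => ?_⟩
  have hL := h1 x ((le_max_right _ _).trans hx)
  have hL0 : 0 < Real.log x := by
    have : (0 : ℝ) ≤ #E := Nat.cast_nonneg _
    linarith
  have hb : ∀ ε : Fin k → ℤ, ∃ Bad : Finset (Fin k → ℤ), ε ∈ E → (#Bad : ℝ) ≤ (∏ i, (x : ℝ) ^ (F i).natDegree) / Real.log x ^ (U + 1) ∧
      ∀ κ : Fin k → ℤ, (∀ i, |κ i| ≤ ((B * x ^ (F i).natDegree : ℕ) : ℤ)) → κ ∉ Bad →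
      (∀ p : ℕ, p.Prime → ∃ n : ℤ, ∀ i, ¬ (p : ℤ) ∣ (F i).eval n + κ i) →
      (∀ n : ℕ, n ≤ x → H * x ≤ H * n + x → ∀ i, 0 < ε i * ((F i).eval (n : ℤ) + κ i)) →
      ∃ n : ℕ, n ≤ x ∧ H * x ≤ H * n + x ∧ ∀ i, ((F i).eval (n : ℤ) + κ i).natAbs.Prime := by
    intro ε
    by_cases h : ε ∈ E
    · obtain ⟨Bad, h2⟩ := hN ε h x (le_trans (single_le_sum (f := N) (fun _ _ => Nat.zero_le _) h) ((le_max_left _ _).trans hx))
      exact ⟨Bad, fun _ => h2⟩
    · exact ⟨∅, fun h' => absurd h' h⟩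
  choose Bad hBad using hb
  refine ⟨E.biUnion Bad, ?_, ?_⟩
  · have h2 : (#(E.biUnion Bad) : ℝ) ≤ ∑ ε ∈ E, (#(Bad ε) : ℝ) := by exact_mod_cast card_biUnion_le
    refine h2.trans ((sum_le_sum fun ε hε => (hBad ε hε).1).trans ?_)
    rw [sum_const, nsmul_eq_mul]
    have hpr : 0 ≤ ∏ i, (x : ℝ) ^ (F i).natDegree := prod_nonneg fun i _ => by positivity
    rw [← mul_div_assoc, div_le_div_iff₀ (by positivity) (by positivity), pow_succ]
    have h3 : (#E : ℝ) ≤ Real.log x := by linarith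
    have h4 : 0 ≤ (∏ i, (x : ℝ) ^ (F i).natDegree) * Real.log x ^ U := by positivity
    nlinarith
  · intro κ hκ hκB hloc ε hε hpos
    rw [mem_biUnion] at hκB
    push Not at hκB
    have hm := (hmem ε).2 hε
    exact (hBad ε hm).2 κ hκ (hκB ε hm) hloc hpos

end Pool.Agent.Y714.PV
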